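import Pool.Agent.T2h53.ML.Pol

/-!
All residue classes.
-/

set_option autoImplicit false

open Finset

namespace Pool.Agent.T2h53.ML

open Pool.Agent.Y842.PH
open Pool.Agent.Helper602.MK (ee)
open Pool.Agent.Helper602.MK.N_J1c (c_ee_add c_ee_int c_norm_ee)
open Pool.Agent.Y958.U (LZ)
open Pool.Agent.T2h53.MC (Spread energy)

lemma class_card (y q r : ℕ) : ((Icc 1 y).filter (fun t => t ≡ r [MOD q])).card ≤ y / q + 1 := by
  have h1 : ((Icc 1 y).filter (fun t => t ≡ r [MOD q])).card ≤ (range (y / q + 1)).card := by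
    apply card_le_card_of_injOn (fun t => t / q)
    · intro t ht
      have ht' := (mem_filter.1 (Finset.mem_coe.1 ht)).1
      rw [mem_Icc] at ht'
      rw [Finset.mem_coe, mem_range]
      have := Nat.div_le_div_right (c := q) ht'.2
      show t / q < y / q + 1
      omega
    · intro t ht u hu htu
      have ht' : t % q = r % q := (mem_filter.1 (Finset.mem_coe.1 ht)).2
      have hu' : u % q = r % q := (mem_filter.1 (Finset.mem_coe.1 hu)).2
      have h2 : t / q = u / q := htu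
      rw [← Nat.div_add_mod t q, ← Nat.div_add_mod u q, h2, ht', hu']
  rwa [card_range] at h1

open Classical in
/-- **families of shifts**, all residue classes -/
theorem classes : ∃ E : Set ℕ, LZ E ∧ ∀ (k : ℕ) (a : Fin k → ℕ) (b : Fin k → ℤ), (∀ i, 1 ≤ a i) →
    (∀ i j, i ≠ j → (a i : ℤ) * b j ≠ a j * b i) → (Odd k ∨ k = 2) → ∀ C p : ℕ, 1 ≤ C → 1 ≤ p →
    ∀ ε : ℝ, 0 < ε → ∃ N₀ : ℕ, ∀ N : ℕ, N₀ ≤ N → N ∉ E →
      (∀ θ : ℝ, ∀ y ≤ N, ‖∑ t ∈ Icc 1 y, ee (θ * t) * H a b t‖ ≤ ε * N) ∧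
      ∀ (x : ℕ) (s : ℕ → ℕ), Spread C p N x s →
        (∀ g : ℕ → ℂ, ∑ n ∈ Icc 1 N, ‖g n‖ ^ 2 ≤ C * N →
          (((range x).filter (fun m => ∃ y ≤ N, ∃ q r : ℕ, 1 ≤ q ∧ ε * N <
            ‖∑ t ∈ (Icc 1 y).filter (fun t => t ≡ r [MOD q]), g t * H a b (t + s m)‖)).card : ℝ) ≤ ε * x) ∧
        (∀ g : ℕ → ℂ, (∀ n, ‖g n‖ ≤ 1) →
          (((range x).filter (fun m => ∃ y ≤ N, ∃ q r : ℕ, 1 ≤ q ∧ ε * N <
            ‖∑ t ∈ (Icc 1 y).filter (fun t => t ≡ r [MOD q]), H a b t * g (t + s m)‖)).card : ℝ) ≤ ε * x) := by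
  obtain ⟨E, hE, h0⟩ := noclass
  refine ⟨E, hE, fun k a b ha hab hk C p hC hp ε hε => ?_⟩
  obtain ⟨Q, hQ⟩ := exists_nat_ge (2 * (C : ℝ) / ε ^ 2 + 1)
  have hCr : (1 : ℝ) ≤ C := by exact_mod_cast hC
  have hQ1 : (1 : ℝ) ≤ Q := le_trans (by
    have : 0 ≤ 2 * (C : ℝ) / ε ^ 2 := by positivity
    linarith) hQ
  have hQ0 : 1 ≤ Q := by exact_mod_cast hQ1
  have hQC : 2 * (C : ℝ) / ε ^ 2 ≤ Q := by linarith
  set ε' : ℝ := ε / (Q : ℝ) ^ 2 with hε'
  have hε'0 : 0 < ε' := by positivity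
  have hε'1 : ε' ≤ ε := div_le_self hε.le (one_le_pow₀ hQ1)
  obtain ⟨N₁, h1⟩ := h0 k a b ha hab hk C p hC hp ε' hε'0
  refine ⟨N₁ + Q, fun N hN hNE => ?_⟩
  obtain ⟨h2, h3⟩ := h1 N (by omega) hNE
  have hN0 : (0 : ℝ) ≤ N := Nat.cast_nonneg N
  have hNQ : (Q : ℝ) ≤ N := by exact_mod_cast (by omega : Q ≤ N)
  have hlarge : ∀ y q r : ℕ, y ≤ N → Q < q →
      (((Icc 1 y).filter (fun t => t ≡ r [MOD q])).card : ℝ) * C ≤ ε ^ 2 * N := by
    intro y q r hy hq
    have e1 : (((Icc 1 y).filter (fun t => t ≡ r [MOD q])).card : ℝ) ≤ 2 * N / Q := by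
      have e2 := class_card y q r
      have e3 : y / q ≤ N / Q := Nat.div_le_div hy hq.le (by omega)
      have e4 : (((Icc 1 y).filter (fun t => t ≡ r [MOD q])).card : ℝ) ≤ ((N / Q + 1 : ℕ) : ℝ) := by
        exact_mod_cast e2.trans (Nat.add_le_add_right e3 1)
      have e5 : ((N / Q : ℕ) : ℝ) ≤ N / Q := Nat.cast_div_le
      have e6 : (1 : ℝ) ≤ N / Q := (one_le_div (by linarith)).2 hNQ
      push_cast at e4
      have e7 : 2 * (N : ℝ) / Q = N / Q + N / Q := by ring
      linarith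
    calc (((Icc 1 y).filter (fun t => t ≡ r [MOD q])).card : ℝ) * C ≤ 2 * N / Q * C :=
          mul_le_mul_of_nonneg_right e1 (by linarith)
      _ = 2 * C / Q * N := by ring
      _ ≤ ε ^ 2 * N := by
          apply mul_le_mul_of_nonneg_right _ hN0
          rw [div_le_iff₀ (by positivity)] at hQC
          rw [div_le_iff₀ (by linarith)]
          linarith
  have hunion : ∀ (x : ℕ) (T : Finset ℕ) (Ex : ℕ × ℕ → Finset ℕ),
      T ⊆ (Icc 1 Q ×ˢ range Q).biUnion Ex → (∀ v, ((Ex v).card : ℝ) ≤ ε' * x) → (T.card : ℝ) ≤ ε * x := by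
    intro x T Ex hT hEx
    have e1 : (T.card : ℝ) ≤ ∑ v ∈ Icc 1 Q ×ˢ range Q, ((Ex v).card : ℝ) := by
      exact_mod_cast (card_le_card hT).trans card_biUnion_le
    refine e1.trans ((sum_le_sum fun v _ => hEx v).trans (le_of_eq ?_))
    rw [sum_const, card_product, Nat.card_Icc, card_range, nsmul_eq_mul, hε']
    push_cast
    field_simp
  refine ⟨fun θ y hy => (h2 θ y hy).trans (mul_le_mul_of_nonneg_right hε'1 hN0),
    fun x s hs => ⟨fun g hg => ?_, fun g hg => ?_⟩⟩
  · refine hunion x _ (fun v => (range x).filter (fun m => ∃ y ≤ N, ε' * N <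
      ‖∑ t ∈ Icc 1 y, (if t ≡ v.2 [MOD v.1] then g t else 0) * H a b (t + s m)‖)) ?_ (fun v => ?_)
    · intro m hm
      rw [mem_filter] at hm
      obtain ⟨hmx, y, hy, q, r, hq, hbig⟩ := hm
      by_cases hqQ : q ≤ Q
      · rw [mem_biUnion]
        refine ⟨(q, r % q), ?_, ?_⟩
        · rw [mem_product, mem_Icc, mem_range]
          exact ⟨⟨hq, hqQ⟩, lt_of_lt_of_le (Nat.mod_lt _ hq) hqQ⟩
        · rw [mem_filter]
          refine ⟨hmx, y, hy, ?_⟩
          refine lt_of_le_of_lt (mul_le_mul_of_nonneg_right hε'1 hN0) (lt_of_lt_of_eq hbig ?_)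
          congr 1
          rw [sum_filter]
          refine sum_congr rfl fun t _ => ?_
          have e1 : t ≡ r [MOD q] ↔ t ≡ r % q [MOD q] := by
            unfold Nat.ModEq
            rw [Nat.mod_mod]
          show _ = (if t ≡ r % q [MOD q] then g t else 0) * _
          by_cases h : t ≡ r [MOD q]
          · rw [if_pos h, if_pos (e1.1 h)]
          · rw [if_neg h, if_neg (fun h' => h (e1.2 h')), zero_mul]
      · exfalso
        rw [not_le] at hqQ
        have e1 := few_terms g C N hg ((Icc 1 y).filter (fun t => t ≡ r [MOD q]))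
          ((filter_subset _ _).trans (Icc_subset_Icc_right hy)) ε hε.le (hlarge y q r hy hqQ)
          (fun t => g t * H a b (t + s m)) (fun t => by
            rw [norm_mul]
            exact mul_le_of_le_one_right (norm_nonneg _) (H_norm a b _))
        linarith
    · refine (h3 x s hs).1 (fun t => if t ≡ v.2 [MOD v.1] then g t else 0)
        (le_trans (sum_le_sum fun n _ => ?_) hg)
      split_ifs
      · exact le_rfl
      · rw [norm_zero]
        exact pow_le_pow_left₀ le_rfl (norm_nonneg _) 2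
  · refine hunion x _ (fun v => (range x).filter (fun m => ∃ y ≤ N, ε' * N <
      ‖∑ t ∈ Icc 1 y, H a b t * (if t + s m ≡ v.2 [MOD v.1] then g (t + s m) else 0)‖)) ?_ (fun v => ?_)
    · intro m hm
      rw [mem_filter] at hm
      obtain ⟨hmx, y, hy, q, r, hq, hbig⟩ := hm
      by_cases hqQ : q ≤ Q
      · rw [mem_biUnion]
        refine ⟨(q, (r + s m) % q), ?_, ?_⟩
        · rw [mem_product, mem_Icc, mem_range]
          exact ⟨⟨hq, hqQ⟩, lt_of_lt_of_le (Nat.mod_lt _ hq) hqQ⟩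
        · rw [mem_filter]
          refine ⟨hmx, y, hy, ?_⟩
          refine lt_of_le_of_lt (mul_le_mul_of_nonneg_right hε'1 hN0) (lt_of_lt_of_eq hbig ?_)
          congr 1
          rw [sum_filter]
          refine sum_congr rfl fun t _ => ?_
          have e1 : t ≡ r [MOD q] ↔ t + s m ≡ (r + s m) % q [MOD q] := by
            have e2 : t + s m ≡ (r + s m) % q [MOD q] ↔ t + s m ≡ r + s m [MOD q] := by
              unfold Nat.ModEq
              rw [Nat.mod_mod]
            rw [e2]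
            exact ⟨fun h => h.add_right _, fun h => Nat.ModEq.add_right_cancel' _ h⟩
          show _ = H a b t * (if t + s m ≡ (r + s m) % q [MOD q] then g (t + s m) else 0)
          by_cases h : t ≡ r [MOD q]
          · rw [if_pos h, if_pos (e1.1 h)]
          · rw [if_neg h, if_neg (fun h' => h (e1.2 h')), mul_zero]
      · exfalso
        rw [not_le] at hqQ
        have e1 := few_terms (fun _ => 1) C N (by
            have e2 : ∑ n ∈ Icc 1 N, ‖(1 : ℂ)‖ ^ 2 = N := by simp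
            rw [e2]
            nlinarith) ((Icc 1 y).filter (fun t => t ≡ r [MOD q]))
          ((filter_subset _ _).trans (Icc_subset_Icc_right hy)) ε hε.le (hlarge y q r hy hqQ)
          (fun t => H a b t * g (t + s m)) (fun t => by
            rw [norm_mul, norm_one]
            exact mul_le_one₀ (H_norm a b _) (norm_nonneg _) (hg _))
        linarith
    · refine (h3 x s hs).2 (fun j => if j ≡ v.2 [MOD v.1] then g j else 0) (fun n => ?_)
      show ‖(if n ≡ v.2 [MOD v.1] then g n else 0)‖ ≤ 1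
      split_ifs
      · exact hg n
      · simp

end Pool.Agent.T2h53.ML
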